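import Pool.Agent.Helper24.AL.St

/-! MP_e188f1_nt, project AL (helper24), module G2. -/

set_option autoImplicit false

namespace Pool.Agent.Helper4.AL

open Pool.Agent.Helper24.AL
open Finset
open Pool.Agent.Helper56.SW (τ I)

private theorem mem_I' {B : ℕ} {x : ℤ} : x ∈ I B ↔ |x| ≤ B := by
  unfold I
  rw [mem_Icc, abs_le]

private theorem abs_le_div {x : ℤ} {A m : ℕ} (hm : 1 ≤ m) (hx : x ≠ 0) (h : m ≤ A / x.natAbs) :
    |x| ≤ ((A / m : ℕ) : ℤ) := by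
  have hx' : 0 < x.natAbs := Int.natAbs_pos.2 hx
  have h1 : m * x.natAbs ≤ A := (Nat.le_div_iff_mul_le hx').1 h
  have h2 : x.natAbs ≤ A / m := by
    rw [Nat.le_div_iff_mul_le hm]
    rwa [mul_comm]
  rw [Int.abs_eq_natAbs]
  exact_mod_cast h2

theorem hG2 (hPAIR : StPAIR) : StG2 := by
  intro c A B κ g m D hc hκ hg hm hD
  have hκ0 : 1 ≤ κ := Nat.pos_of_dvd_of_pos hκ hc
  have hg0 : 1 ≤ g := Nat.pos_of_dvd_of_pos hg hc
  have hX1 : A / m * (3 * B) ≤ 3 * A * B / m := by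
    rw [Nat.le_div_iff_mul_le hm]
    calc A / m * (3 * B) * m = (A / m * m) * (3 * B) := by ring
      _ ≤ A * (3 * B) := Nat.mul_le_mul_right _ (Nat.div_mul_le_self A m)
      _ = 3 * A * B := by ring
  have hX2 : 3 * A * (B / m) ≤ 3 * A * B / m := by
    rw [Nat.le_div_iff_mul_le hm]
    calc 3 * A * (B / m) * m = 3 * A * (B / m * m) := by ring
      _ ≤ 3 * A * B := Nat.mul_le_mul_left _ (Nat.div_mul_le_self B m)
  have hP := hPAIR c (A / m) (B / m) (3 * A) (3 * B) (κ * g) (3 * A * B / m) D hc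
    (Nat.mul_pos hκ0 hg0) hX1 hX2 (fun j h1 h2 => hD j h1 (h2.trans (Nat.div_le_self _ _)))
  have hsub : ((Bz A B ×ˢ Bz (3 * A) (3 * B)).filter fun p =>
      mx A B p.1 = m ∧ Int.gcd (Int.gcd p.1.1 p.1.2) c = κ ∧
      Int.gcd (Int.gcd p.2.1 p.2.2) c = g ∧
      (c : ℤ) ∣ p.1.1 * p.2.2 - p.2.1 * p.1.2 ∧ p.1.1 * p.2.2 ≠ p.2.1 * p.1.2) ⊆
      PR c (A / m) (B / m) (3 * A) (3 * B) (κ * g) := by
    rintro ⟨⟨u1, u2⟩, ⟨w1, w2⟩⟩ hp
    rw [mem_filter, mem_product] at hp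
    obtain ⟨⟨hu, hw⟩, hmx, hgk, hgg, hdv, hne⟩ := hp
    unfold Bz at hu hw
    rw [mem_filter, mem_product] at hu hw
    obtain ⟨⟨hu1, hu2⟩, hu10, hu20⟩ := hu
    obtain ⟨⟨hw1, hw2⟩, hw10, hw20⟩ := hw
    simp only at hmx hgk hgg hdv hne hu1 hu2 hu10 hu20 hw1 hw2 hw10 hw20
    unfold mx at hmx
    simp only at hmx
    have hm1 : m ≤ A / u1.natAbs := by rw [← hmx]; exact min_le_left _ _
    have hm2 : m ≤ B / u2.natAbs := by rw [← hmx]; exact min_le_right _ _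
    have k1 : (κ : ℤ) ∣ u1 := by
      rw [← hgk]
      exact (Int.gcd_dvd_left _ _).trans (Int.gcd_dvd_left _ _)
    have k2 : (κ : ℤ) ∣ u2 := by
      rw [← hgk]
      exact (Int.gcd_dvd_left _ _).trans (Int.gcd_dvd_right _ _)
    have g1 : (g : ℤ) ∣ w1 := by
      rw [← hgg]
      exact (Int.gcd_dvd_left _ _).trans (Int.gcd_dvd_left _ _)
    have g2 : (g : ℤ) ∣ w2 := by
      rw [← hgg]
      exact (Int.gcd_dvd_left _ _).trans (Int.gcd_dvd_right _ _)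
    unfold PR
    rw [mem_filter, mem_product, mem_product, mem_product]
    refine ⟨⟨⟨mem_I'.2 (abs_le_div hm hu10 hm1), mem_I'.2 (abs_le_div hm hu20 hm2)⟩, hw1, hw2⟩,
      hu10, hu20, hw10, hw20, hdv, hne, ?_, ?_⟩
    · push_cast
      exact mul_dvd_mul k1 g2
    · push_cast
      rw [mul_comm (κ : ℤ) (g : ℤ)]
      exact mul_dvd_mul g1 k2
  have hcard : (((Bz A B ×ˢ Bz (3 * A) (3 * B)).filter fun p =>
      mx A B p.1 = m ∧ Int.gcd (Int.gcd p.1.1 p.1.2) c = κ ∧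
      Int.gcd (Int.gcd p.2.1 p.2.2) c = g ∧
      (c : ℤ) ∣ p.1.1 * p.2.2 - p.2.1 * p.1.2 ∧ p.1.1 * p.2.2 ≠ p.2.1 * p.1.2).card : ℝ) ≤
      ((PR c (A / m) (B / m) (3 * A) (3 * B) (κ * g)).card : ℝ) := by
    exact_mod_cast card_le_card hsub
  refine hcard.trans (hP.trans ?_)
  have hm' : (0 : ℝ) < m := by exact_mod_cast hm
  have hc' : (0 : ℝ) < c := by exact_mod_cast hc
  have hκ' : (0 : ℝ) < κ := by exact_mod_cast hκ0
  have hg' : (0 : ℝ) < g := by exact_mod_cast hg0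
  have hXr : ((3 * A * B / m : ℕ) : ℝ) ≤ 3 * A * B / m := by
    have := @Nat.cast_div_le ℝ _ _ _ (3 * A * B) m
    push_cast at this
    exact this
  have hX0 : (0 : ℝ) ≤ ((3 * A * B / m : ℕ) : ℝ) := Nat.cast_nonneg _
  have hsq : ((3 * A * B / m : ℕ) : ℝ) ^ 2 ≤ (3 * A * B / m) ^ 2 := pow_le_pow_left₀ hX0 hXr 2
  calc 32 * D ^ 2 * ((3 * A * B / m : ℕ) : ℝ) ^ 2 / (((κ * g : ℕ) : ℝ) * c)
      ≤ 32 * D ^ 2 * (3 * A * B / m) ^ 2 / (((κ * g : ℕ) : ℝ) * c) := by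
        refine div_le_div_of_nonneg_right ?_ (by positivity)
        exact mul_le_mul_of_nonneg_left hsq (by positivity)
    _ = 288 * D ^ 2 * ((A : ℝ) * B) ^ 2 / ((m : ℝ) ^ 2 * κ * g * c) := by
        push_cast
        field_simp
        ring

end Pool.Agent.Helper4.AL
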